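import Pool.Agent.H8.Greedy

set_option autoImplicit false

open Finset Pool.Agent.H8.Greedy

namespace Pool.Agent.Results.MP_b7f2f1_an.NotSemiGreedy

/-! ### Definitions (the notions of the problem) -/

section defs
variable {𝕜 : Type} [RCLike 𝕜] {X : Type} [NormedAddCommGroup X] [NormedSpace 𝕜 X]

/-- `(e n)` with functionals `(e' n)` is a Markushevich basis -/
def IsMarkushevich (e : ℕ → X) (e' : ℕ → (X →L[𝕜] 𝕜)) : Prop :=
  (∀ k n, e' k (e n) = if k = n then 1 else 0) ∧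
  Dense (Submodule.span 𝕜 (Set.range e) : Set X) ∧
  (∀ x : X, (∀ n, e' n x = 0) → x = 0)

/-- coordinate projection `P_A` -/
noncomputable def proj (e : ℕ → X) (e' : ℕ → (X →L[𝕜] 𝕜)) (A : Finset ℕ) (x : X) : X := ∑ n ∈ A, e' n x • e n

/-- `A` is a greedy set of `x` -/
def IsGreedySet (e' : ℕ → (X →L[𝕜] 𝕜)) (x : X) (A : Finset ℕ) : Prop := ∀ n ∈ A, ∀ k ∉ A, ‖e' k x‖ ≤ ‖e' n x‖

/-- `σ_m(x)` -/
noncomputable def sigma (𝕜 : Type) [RCLike 𝕜] {X : Type} [NormedAddCommGroup X] [NormedSpace 𝕜 X] (e : ℕ → X) (m : ℕ) (x : X) : ℝ :=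
  ⨅ p : {B : Finset ℕ // B.card ≤ m} × (ℕ → 𝕜), ‖x - ∑ n ∈ p.1.1, p.2 n • e n‖

/-- `σ̃_m(x)` -/
noncomputable def sigmaTilde (e : ℕ → X) (e' : ℕ → (X →L[𝕜] 𝕜)) (m : ℕ) (x : X) : ℝ :=
  ⨅ B : {B : Finset ℕ // B.card ≤ m}, ‖x - proj e e' B.1 x‖

/-- `C`-almost-greedy -/
def AlmostGreedy (e : ℕ → X) (e' : ℕ → (X →L[𝕜] 𝕜)) (C : ℝ) : Prop :=
  ∀ (x : X) (A : Finset ℕ), IsGreedySet e' x A → ‖x - proj e e' A x‖ ≤ C * sigmaTilde e e' A.card x

/-- `C`-semi-greedy -/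
def SemiGreedy (e : ℕ → X) (e' : ℕ → (X →L[𝕜] 𝕜)) (C : ℝ) : Prop :=
  ∀ (x : X) (A : Finset ℕ), IsGreedySet e' x A →
    (⨅ a : ℕ → 𝕜, ‖x - ∑ n ∈ A, a n • e n‖) ≤ C * sigma 𝕜 e A.card x

end defs

/-! ### The space -/

section space
variable (𝕜 : Type) [RCLike 𝕜]

/-- `ℓ¹`, to be renormed -/
def XX : Type := lp (fun _ : ℕ => 𝕜) 1

noncomputable instance : AddCommGroup (XX 𝕜) := inferInstanceAs (AddCommGroup (lp (fun _ : ℕ => 𝕜) 1))
noncomputable instance : Module 𝕜 (XX 𝕜) := inferInstanceAs (Module 𝕜 (lp (fun _ : ℕ => 𝕜) 1))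

variable {𝕜}

/-- underlying element of `ℓ¹` -/
def ul (x : XX 𝕜) : lp (fun _ : ℕ => 𝕜) 1 := x

/-- coordinates -/
def co (x : XX 𝕜) : ℕ → 𝕜 := fun i => ul x i

theorem co_add (x y : XX 𝕜) : co (x + y) = co x + co y := rfl
theorem co_smul (c : 𝕜) (x : XX 𝕜) : co (c • x) = c • co x := rfl

theorem summ (x : lp (fun _ : ℕ => 𝕜) 1) : Summable fun i => ‖x i‖ := by
  have := (memℓp_gen_iff (p := 1) (by norm_num)).1 (lp.memℓp x)
  simpa using this

theorem l1norm (x : lp (fun _ : ℕ => 𝕜) 1) : ‖x‖ = ∑' i, ‖x i‖ := by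
  rw [lp.norm_eq_tsum_rpow (by norm_num)]
  simp

theorem sum_le (x : lp (fun _ : ℕ => 𝕜) 1) (E : Finset ℕ) : ∑ i ∈ E, ‖x i‖ ≤ ‖x‖ := by
  rw [l1norm]
  exact (summ x).sum_le_tsum E (fun _ _ => norm_nonneg _)

theorem coord_le (x : lp (fun _ : ℕ => 𝕜) 1) (i : ℕ) : ‖x i‖ ≤ ‖x‖ := by
  have := sum_le x {i}
  simpa using this

theorem φ_le (x : XX 𝕜) (E : Finset ℕ) : φ E (co x) ≤ 4 * ‖ul x‖ := by
  unfold φ
  have h1 : ∑ i ∈ E, ‖co x i‖ ≤ ‖ul x‖ := sum_le (ul x) E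
  have h0 : 0 ≤ ∑ i ∈ E, ‖co x i‖ := sum_nonneg fun _ _ => norm_nonneg _
  have h2 : ∀ i, ‖g E i (co x)‖ ≤ ‖ul x‖ := by
    intro i
    unfold g
    split_ifs
    · simp
    · exact coord_le (ul x) i
  have h3 := norm_sub_le (g E 2 (co x)) (g E 1 (co x))
  have h4 := c_le_two E
  have h5 : (1 + 1 / (E.card : ℝ)) * ∑ i ∈ E, ‖co x i‖ ≤ 2 * ‖ul x‖ := mul_le_mul h4 h1 h0 (by norm_num)
  have := h2 1
  have := h2 2
  linarith

/-- the new norm -/
noncomputable def NN (x : XX 𝕜) : ℝ := ⨆ E : Finset ℕ, φ E (co x)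

theorem NN_bdd (x : XX 𝕜) : BddAbove (Set.range fun E : Finset ℕ => φ E (co x)) := ⟨4 * ‖ul x‖, by rintro _ ⟨E, rfl⟩; exact φ_le x E⟩

theorem le_NN (x : XX 𝕜) (E : Finset ℕ) : φ E (co x) ≤ NN x := le_ciSup (NN_bdd x) E

theorem NN_le (x : XX 𝕜) : NN x ≤ 4 * ‖ul x‖ := ciSup_le fun E => φ_le x E

theorem l1_le_NN (x : XX 𝕜) : ‖ul x‖ ≤ NN x := by
  rw [l1norm]
  refine Real.tsum_le_of_sum_le (fun _ => norm_nonneg _) fun E => ?_
  refine le_trans ?_ (le_NN x E)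
  unfold φ
  have h0 : 0 ≤ ∑ i ∈ E, ‖co x i‖ := sum_nonneg fun _ _ => norm_nonneg _
  have h1 : 0 ≤ 1 / (E.card : ℝ) * ∑ i ∈ E, ‖co x i‖ := mul_nonneg (by positivity) h0
  have h2 := norm_nonneg (g E 2 (co x) - g E 1 (co x))
  have h3 : ∑ i ∈ E, ‖(ul x) i‖ = ∑ i ∈ E, ‖co x i‖ := rfl
  rw [h3]
  nlinarith

noncomputable instance : Norm (XX 𝕜) := ⟨NN⟩

theorem core : NormedSpace.Core 𝕜 (XX 𝕜) where
  norm_nonneg x := le_trans (φ_nonneg ∅ (co x)) (le_NN x ∅)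
  norm_smul c x := by
    change NN (c • x) = ‖c‖ * NN x
    unfold NN
    rw [Real.mul_iSup_of_nonneg (norm_nonneg c)]
    congr 1
    funext E
    rw [co_smul, φ_smul]
  norm_triangle x y := by
    change NN (x + y) ≤ NN x + NN y
    refine ciSup_le fun E => ?_
    rw [co_add]
    exact (φ_add E _ _).trans (add_le_add (le_NN x E) (le_NN y E))
  norm_eq_zero_iff x := by
    change NN x = 0 ↔ x = 0
    constructor
    · intro h
      have h1 := l1_le_NN x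
      rw [h] at h1
      have h2 : ul x = 0 := norm_le_zero_iff.1 h1
      exact h2
    · rintro rfl
      have h1 := NN_le (0 : XX 𝕜)
      have h2 : ‖ul (0 : XX 𝕜)‖ = 0 := norm_zero (E := lp (fun _ : ℕ => 𝕜) 1)
      rw [h2, mul_zero] at h1
      have h3 : 0 ≤ NN (0 : XX 𝕜) := le_trans (φ_nonneg ∅ (co 0)) (le_NN 0 ∅)
      linarith

noncomputable instance : NormedAddCommGroup (XX 𝕜) := NormedAddCommGroup.ofCore (core (𝕜 := 𝕜))
noncomputable instance : NormedSpace 𝕜 (XX 𝕜) := NormedSpace.ofCore (core (𝕜 := 𝕜))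

theorem norm_def (x : XX 𝕜) : ‖x‖ = NN x := rfl

/-- identity as an isomorphism -/
noncomputable def idL : XX 𝕜 ≃L[𝕜] lp (fun _ : ℕ => 𝕜) 1 :=
  LinearEquiv.toContinuousLinearEquivOfBounds
    { toFun := ul, invFun := fun x => x, map_add' := fun _ _ => rfl, map_smul' := fun _ _ => rfl, left_inv := fun _ => rfl, right_inv := fun _ => rfl }
    1 4 (fun x => by rw [one_mul]; exact l1_le_NN x) (fun x => NN_le (𝕜 := 𝕜) x)

instance : CompleteSpace (XX 𝕜) := by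
  have h := idL (𝕜 := 𝕜) |>.isUniformEmbedding
  exact (completeSpace_congr (e := (idL (𝕜 := 𝕜)).toEquiv) h).2 inferInstance

/-- unit vectors -/
noncomputable def ee (n : ℕ) : XX 𝕜 := lp.single 1 n (1 : 𝕜)

/-- coordinate functionals -/
noncomputable def ef (n : ℕ) : XX 𝕜 →L[𝕜] 𝕜 :=
  LinearMap.mkContinuous { toFun := fun x => co x n, map_add' := fun _ _ => rfl, map_smul' := fun _ _ => rfl } 1
    (fun x => by rw [one_mul]; exact (coord_le (ul x) n).trans (l1_le_NN x))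

theorem ef_apply (n : ℕ) (x : XX 𝕜) : ef n x = co x n := rfl

theorem co_ee (n i : ℕ) : co (ee n : XX 𝕜) i = if i = n then 1 else 0 := by
  change (lp.single 1 n (1 : 𝕜) : lp (fun _ : ℕ => 𝕜) 1) i = _
  by_cases h : i = n
  · subst h; rw [lp.single_apply_self, if_pos rfl]
  · rw [lp.single_apply_ne (E := fun _ : ℕ => 𝕜) 1 n (1 : 𝕜) h, if_neg h]

theorem co_ext {x y : XX 𝕜} (h : ∀ i, co x i = co y i) : x = y := lp.ext (funext h)

theorem co_sub (x y : XX 𝕜) (i : ℕ) : co (x - y) i = co x i - co y i := rfl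

theorem co_sum (A : Finset ℕ) (a : ℕ → 𝕜) (i : ℕ) : co (∑ n ∈ A, a n • (ee n : XX 𝕜)) i = if i ∈ A then a i else 0 := by
  have h1 : co (∑ n ∈ A, a n • (ee n : XX 𝕜)) i = ef i (∑ n ∈ A, a n • (ee n : XX 𝕜)) := rfl
  rw [h1, map_sum]
  simp only [map_smul, ef_apply, co_ee, smul_eq_mul, mul_ite, mul_one, mul_zero]
  rw [sum_ite_eq]

theorem isM : IsMarkushevich (𝕜 := 𝕜) (ee : ℕ → XX 𝕜) ef := by
  refine ⟨fun k n => co_ee n k, ?_, fun x hx => co_ext fun i => ?_⟩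
  · intro x
    have h := lp.hasSum_single (p := 1) (E := fun _ : ℕ => 𝕜) (by norm_num) (ul x)
    have h2 := h.mapL (idL (𝕜 := 𝕜)).symm.toContinuousLinearMap
    have h3 : (idL (𝕜 := 𝕜)).symm.toContinuousLinearMap (ul x) = x := rfl
    rw [h3] at h2
    refine mem_closure_of_tendsto h2 (Filter.Eventually.of_forall fun s => ?_)
    refine Submodule.sum_mem _ fun n _ => ?_
    have e : (idL (𝕜 := 𝕜)).symm.toContinuousLinearMap (lp.single 1 n (ul x n)) = (co x n) • (ee n : XX 𝕜) := by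
      refine co_ext fun i => ?_
      rw [co_smul, Pi.smul_apply, co_ee]
      change (lp.single 1 n (ul x n) : lp (fun _ : ℕ => 𝕜) 1) i = _
      by_cases h : i = n
      · subst h; rw [lp.single_apply_self, if_pos rfl, smul_eq_mul, mul_one]; rfl
      · rw [lp.single_apply_ne (E := fun _ : ℕ => 𝕜) 1 n _ h, if_neg h, smul_zero]
    rw [e]
    exact Submodule.smul_mem _ _ (Submodule.subset_span ⟨n, rfl⟩)
  · rw [← ef_apply, hx i]; rfl

theorem co_off (A : Finset ℕ) (x : XX 𝕜) : co (x - proj (𝕜 := 𝕜) ee ef A x) = off A (co x) := by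
  funext i
  rw [co_sub]
  unfold proj off
  rw [co_sum]
  split_ifs with h
  · rw [ef_apply, sub_self]
  · rw [sub_zero]

theorem isAG : AlmostGreedy (𝕜 := 𝕜) (ee : ℕ → XX 𝕜) ef 1 := by
  intro x A hA
  rw [one_mul]
  have : Nonempty {B : Finset ℕ // B.card ≤ A.card} := ⟨⟨A, le_rfl⟩⟩
  refine le_ciInf fun B => ?_
  rw [norm_def, norm_def]
  refine ciSup_le fun E => ?_
  rw [co_off]
  obtain ⟨E', hE'⟩ := ag_key (co x) A B.1 hA B.2 E
  refine hE'.trans ?_
  rw [← co_off]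
  exact le_NN _ E'

/-- the test vector -/
noncomputable def tv : XX 𝕜 := (101/100 : 𝕜) • ee 0 + (ee 1 + (1/10 : 𝕜) • ee 2)

theorem co_tv (i : ℕ) : co (tv : XX 𝕜) i = if i = 0 then 101/100 else if i = 1 then 1 else if i = 2 then 1/10 else 0 := by
  unfold tv
  rw [co_add, co_add, co_smul, co_smul, Pi.add_apply, Pi.add_apply, Pi.smul_apply, Pi.smul_apply, co_ee, co_ee, co_ee]
  by_cases h0 : i = 0
  · subst h0; simp
  · by_cases h1 : i = 1
    · subst h1; simp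
    · by_cases h2 : i = 2
      · subst h2; simp
      · simp [h0, h1, h2]

theorem tv_greedy : IsGreedySet (𝕜 := 𝕜) ef (tv : XX 𝕜) {0} := by
  intro n hn k hk
  rw [mem_singleton] at hn hk
  subst hn
  rw [ef_apply, ef_apply, co_tv, co_tv, if_neg hk, if_pos rfl]
  have h : ‖(101/100 : 𝕜)‖ = 101/100 := by
    rw [norm_div]; simp
  rw [h]
  split_ifs
  · rw [norm_one]; norm_num
  · rw [norm_div]; simp; norm_num
  · rw [norm_zero]; norm_num

theorem lower (a : ℕ → 𝕜) : 21/10 ≤ ‖(tv : XX 𝕜) - ∑ n ∈ {0}, a n • ee n‖ := by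
  rw [norm_def]
  refine le_trans ?_ (le_NN _ {1})
  unfold φ g
  rw [sum_singleton, co_sub, co_sum, if_neg (by simp), sub_zero, co_sub, co_sum, if_neg (by simp), if_neg (by simp), sub_zero, co_tv, co_tv]
  simp
  norm_num

theorem upper : ‖(tv : XX 𝕜) - ∑ n ∈ {1}, (fun _ : ℕ => (9/10 : 𝕜)) n • ee n‖ ≤ 202/100 := by
  have hc : ∀ i, co ((tv : XX 𝕜) - ∑ n ∈ {1}, (fun _ : ℕ => (9/10 : 𝕜)) n • ee n) i = if i = 0 then 101/100 else if i = 1 then 1/10 else if i = 2 then 1/10 else 0 := by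
    intro i
    rw [co_sub, co_sum, co_tv]
    by_cases h0 : i = 0
    · subst h0; simp
    · by_cases h1 : i = 1
      · subst h1; simp; norm_num
      · simp [h0, h1]
  set y := (tv : XX 𝕜) - ∑ n ∈ {1}, (fun _ : ℕ => (9/10 : 𝕜)) n • ee n with hy
  have n0 : ‖co y 0‖ = 101/100 := by rw [hc, if_pos rfl, norm_div]; simp
  have n1 : ‖co y 1‖ = 1/10 := by rw [hc, if_neg (by norm_num), if_pos rfl, norm_div]; simp
  have n2 : ‖co y 2‖ = 1/10 := by rw [hc, if_neg (by norm_num), if_neg (by norm_num), if_pos rfl, norm_div]; simp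
  have n12 : co y 2 - co y 1 = 0 := by
    rw [hc, hc, if_neg (by norm_num), if_neg (by norm_num), if_pos rfl, if_neg (by norm_num), if_pos rfl, sub_self]
  have ni : ∀ i, 3 ≤ i → ‖co y i‖ = 0 := by
    intro i hi
    rw [hc, if_neg (by omega), if_neg (by omega), if_neg (by omega), norm_zero]
  rw [norm_def]
  refine ciSup_le fun E => ?_
  have hsum : ∑ i ∈ E, ‖co y i‖ ≤ (if 0 ∈ E then 101/100 else 0) + (if 1 ∈ E then 1/10 else 0) + (if 2 ∈ E then 1/10 else 0) := by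
    have h1 : ∑ i ∈ E, ‖co y i‖ = ∑ i ∈ E, ((if i = 0 then (101/100 : ℝ) else 0) + (if i = 1 then 1/10 else 0) + (if i = 2 then 1/10 else 0)) := by
      refine sum_congr rfl fun i _ => ?_
      rcases (show i = 0 ∨ i = 1 ∨ i = 2 ∨ 3 ≤ i by omega) with rfl | rfl | rfl | h
      · rw [n0]; norm_num
      · rw [n1]; norm_num
      · rw [n2]; norm_num
      · rw [ni i h, if_neg (by omega), if_neg (by omega), if_neg (by omega)]; norm_num
    rw [h1, sum_add_distrib, sum_add_distrib, sum_ite_eq', sum_ite_eq', sum_ite_eq']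
  have hs0 : 0 ≤ ∑ i ∈ E, ‖co y i‖ := sum_nonneg fun _ _ => norm_nonneg _
  have hg : ‖g E 2 (co y) - g E 1 (co y)‖ ≤ if (1 ∈ E ∨ 2 ∈ E) then 1/10 else 0 := by
    unfold g
    by_cases h1 : 1 ∈ E <;> by_cases h2 : 2 ∈ E
    · rw [if_pos h1, if_pos h2, if_pos (Or.inl h1), sub_self, norm_zero]; norm_num
    · rw [if_pos h1, if_neg h2, if_pos (Or.inl h1), sub_zero, n2]
    · rw [if_neg h1, if_pos h2, if_pos (Or.inr h2), zero_sub, norm_neg, n1]
    · rw [if_neg h1, if_neg h2, if_neg (by tauto), n12, norm_zero]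
  unfold φ
  have hc2 := c_le_two E
  by_cases h0 : 0 ∈ E
  · by_cases h12 : 1 ∈ E ∨ 2 ∈ E
    · rw [if_pos h12] at hg
      have hcard : 2 ≤ E.card := by
        rcases h12 with h | h
        · have : ({0, 1} : Finset ℕ) ⊆ E := by
            intro i hi; rw [mem_insert, mem_singleton] at hi; rcases hi with rfl | rfl <;> assumption
          have := card_le_card this
          rwa [card_pair (by norm_num)] at this
        · have : ({0, 2} : Finset ℕ) ⊆ E := by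
            intro i hi; rw [mem_insert, mem_singleton] at hi; rcases hi with rfl | rfl <;> assumption
          have := card_le_card this
          rwa [card_pair (by norm_num)] at this
      have hcE : 1 + 1 / (E.card : ℝ) ≤ 3/2 := by
        have h2 : (2 : ℝ) ≤ E.card := by exact_mod_cast hcard
        have := one_div_le_one_div_of_le (by norm_num : (0:ℝ) < 2) h2
        linarith
      have hsle : ∑ i ∈ E, ‖co y i‖ ≤ 121/100 := by
        refine hsum.trans ?_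
        rw [if_pos h0]
        split_ifs <;> norm_num
      have := mul_le_mul hcE hsle hs0 (by norm_num)
      linarith
    · rw [if_neg h12] at hg
      push Not at h12
      have hsle : ∑ i ∈ E, ‖co y i‖ ≤ 101/100 := by
        refine hsum.trans ?_
        rw [if_pos h0, if_neg h12.1, if_neg h12.2]; norm_num
      have := mul_le_mul hc2 hsle hs0 (by norm_num)
      linarith
  · have hsle : ∑ i ∈ E, ‖co y i‖ ≤ 2/10 := by
      refine hsum.trans ?_
      rw [if_neg h0]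
      split_ifs <;> norm_num
    have := mul_le_mul hc2 hsle hs0 (by norm_num)
    have hg2 : ‖g E 2 (co y) - g E 1 (co y)‖ ≤ 1/10 := hg.trans (by split_ifs <;> norm_num)
    linarith

theorem notSG : ¬ SemiGreedy (𝕜 := 𝕜) (ee : ℕ → XX 𝕜) ef 1 := by
  intro h
  have h1 := h tv {0} tv_greedy
  rw [one_mul] at h1
  have h3 : sigma 𝕜 ee ({0} : Finset ℕ).card (tv : XX 𝕜) ≤ 202/100 := by
    have hb : BddBelow (Set.range fun p : {B : Finset ℕ // B.card ≤ ({0} : Finset ℕ).card} × (ℕ → 𝕜) => ‖(tv : XX 𝕜) - ∑ n ∈ p.1.1, p.2 n • ee n‖) := by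
      refine ⟨0, ?_⟩
      rintro _ ⟨p, rfl⟩
      exact norm_nonneg _
    have h4 := ciInf_le hb (⟨{1}, le_rfl⟩, fun _ => (9/10 : 𝕜))
    exact h4.trans upper
  have h5 := h1.trans h3
  have h2 := (le_ciInf (lower (𝕜 := 𝕜))).trans h5
  norm_num at h2

end space

/-- Over `𝕜 = ℝ` and over `𝕜 = ℂ` there is a Banach space with a Markushevich basis which is
`1`-almost-greedy but not `1`-semi-greedy. -/
theorem result (𝕜 : Type) [RCLike 𝕜] :
    ∃ (X : Type) (_ : NormedAddCommGroup X) (_ : NormedSpace 𝕜 X) (_ : CompleteSpace X)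
      (e : ℕ → X) (e' : ℕ → (X →L[𝕜] 𝕜)),
      IsMarkushevich e e' ∧ AlmostGreedy e e' 1 ∧ ¬ SemiGreedy e e' 1 :=
  ⟨XX 𝕜, inferInstance, inferInstance, inferInstance, ee, ef, isM, isAG, notSG⟩

end Pool.Agent.Results.MP_b7f2f1_an.NotSemiGreedy
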